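import Mathlib
import Pool.Agent.H73.G.R8.TH813.Ell0

/-!
# Job 1796 (helper813): sums of logarithmic derivatives, a constant and a multiple of `℘`
-/

set_option autoImplicit false

open Filter
open scoped Topology PeriodPair

noncomputable section

namespace Pool.Agent.TH312.J1796

open H667R3 Pool.Agent.W245.EB Pool.Agent.TH813.Ell

variable {L : PeriodPair}

lemma nhdsNE_of_codisc {f g : ℂ → ℂ} (h : f =ᶠ[codiscrete ℂ] g) (x : ℂ) : f =ᶠ[𝓝[≠] x] g := by
  have h1 := (mem_codiscrete.1 h) x
  rw [disjoint_principal_right, compl_compl] at h1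
  exact h1

lemma codisc_of_nhdsNE {f g : ℂ → ℂ} (h : ∀ x, f =ᶠ[𝓝[≠] x] g) : f =ᶠ[codiscrete ℂ] g := by
  refine mem_codiscrete.2 fun x => ?_
  rw [disjoint_principal_right, compl_compl]
  exact h x

lemma lat_nhdsNE (x : ℂ) : ∀ᶠ z in 𝓝[≠] x, z ∉ L.lattice := by
  have h := L.compl_lattice_sdiff_singleton_mem_nhds x
  filter_upwards [nhdsWithin_le_nhds h, self_mem_nhdsWithin] with z hz hz2 hz3
  exact hz ⟨hz3, hz2⟩

/-- the residue of a logarithmic derivative -/
lemma tendsto_mul_logDeriv {f : ℂ → ℂ} {x : ℂ} (hf : MeromorphicAt f x) {n : ℤ}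
    (hn : meromorphicOrderAt f x = n) :
    Tendsto (fun z => (z - x) * logDeriv f z) (𝓝[≠] x) (𝓝 (n : ℂ)) := by
  obtain ⟨g, hga, hg0, hg⟩ := (meromorphicOrderAt_eq_int_iff hf).1 hn
  have h1 : ∀ᶠ z in 𝓝[≠] x, (n : ℂ) + (z - x) * (deriv g z / g z) = (z - x) * logDeriv f z := by
    have hc : ∀ᶠ z in 𝓝[≠] x, logDeriv f z = logDeriv (fun z => (z - x) ^ n • g z) z :=
      logDeriv_congr_nhdsNE hg
    filter_upwards [hga.eventually_analyticAt.filter_mono (nhdsWithin_le_nhds),
      self_mem_nhdsWithin, hc,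
      (hga.continuousAt.eventually_ne hg0).filter_mono (nhdsWithin_le_nhds)] with z h2 h3 h4 h5
    have h6 : z - x ≠ 0 := sub_ne_zero.2 h3
    rw [h4]
    have h7 : logDeriv (fun z => (z - x) ^ n • g z) z
        = logDeriv (fun z => (z - x) ^ n) z + logDeriv g z := by
      have := logDeriv_mul (f := fun z => (z - x) ^ n) (g := g) z (zpow_ne_zero n h6) h5
        (by
          have : DifferentiableAt ℂ (fun z : ℂ => z - x) z := by fun_prop
          exact this.zpow (Or.inl h6)) h2.differentiableAt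
      simpa [smul_eq_mul] using this
    have h8 : logDeriv (fun z => (z - x) ^ n) z = n / (z - x) := by
      have := logDeriv_fun_zpow (f := fun z : ℂ => z - x) (x := z) (by fun_prop) n
      rw [this]
      simp [logDeriv_apply, div_eq_mul_inv]
    rw [h7, h8, logDeriv_apply]
    field_simp
  refine Tendsto.congr' h1 ?_
  have h9 : ContinuousAt (fun z => (n : ℂ) + (z - x) * (deriv g z / g z)) x := by
    have h10 : ContinuousAt (deriv g) x := hga.deriv.continuousAt
    have h11 : ContinuousAt g x := hga.continuousAt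
    fun_prop (disch := exact hg0)
  have h12 := h9.tendsto
  simp only [sub_self, zero_mul, add_zero] at h12
  exact h12.mono_left nhdsWithin_le_nhds

/-- orders of non-vanishing elliptic functions are finite -/
lemma order_ne_top {f : ℂ → ℂ} (hf : Meromorphic f) (h0 : ¬ f =ᶠ[codiscrete ℂ] fun _ => 0)
    (x : ℂ) : meromorphicOrderAt f x ≠ ⊤ := by
  intro hx
  apply h0
  apply codisc_of_nhdsNE
  intro y
  have : meromorphicOrderAt f y = ⊤ := by
    by_contra hy
    exact (meromorphicOn_univ.2 hf).meromorphicOrderAt_ne_top_of_isPreconnected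
      isPreconnected_univ (Set.mem_univ y) (Set.mem_univ x) hy hx
  exact meromorphicOrderAt_eq_top_iff.1 this

lemma ellip_prod_zpow {n : ℕ} {N : Fin n → ℂ → ℂ} (hN : ∀ l, Ellip L (N l)) (a : Fin n → ℤ) :
    Ellip L (fun z => ∏ l, N l z ^ a l) := by
  refine ⟨?_, ?_⟩
  · have : Meromorphic (∏ l, (fun z => N l z ^ a l)) := by
      intro x
      apply MeromorphicAt.prod
      intro l _
      exact ((hN l).1 x).zpow (a l)
    have e : (fun z => ∏ l, N l z ^ a l) = (∏ l, (fun z => N l z ^ a l)) := by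
      funext z; simp
    rw [e]; exact this
  · intro w hw
    have h : ∀ᶠ z in codiscrete ℂ, ∀ l, N l (z + w) = N l z :=
      eventually_all.2 fun l => (hN l).2 w hw
    filter_upwards [h] with z hz
    simp only [hz]

/-- a meromorphic function without poles and with derivative zero is constant -/
lemma const_of_deriv {H : ℂ → ℂ} (hH : Meromorphic H) (h0 : ∀ x, 0 ≤ meromorphicOrderAt H x)
    (hd : ∀ x, deriv H =ᶠ[𝓝[≠] x] fun _ => 0) : ∃ c : ℂ, H =ᶠ[codiscrete ℂ] fun _ => c := by
  set F := toMeromorphicNFOn H Set.univ with hF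
  have hHu : MeromorphicOn H Set.univ := meromorphicOn_univ.2 hH
  have hFn : MeromorphicNFOn F Set.univ := meromorphicNFOn_toMeromorphicNFOn H Set.univ
  have hFa : ∀ x, AnalyticAt ℂ F x := by
    intro x
    rw [← (hFn (Set.mem_univ x)).meromorphicOrderAt_nonneg_iff_analyticAt, hF,
      meromorphicOrderAt_toMeromorphicNFOn hHu (Set.mem_univ x)]
    exact h0 x
  have hFe : ∀ x, F =ᶠ[𝓝[≠] x] H := fun x => hHu.toMeromorphicNFOn_eq_self_on_nhdsNE (Set.mem_univ x)
  have hFd : Differentiable ℂ F := fun x => (hFa x).differentiableAt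
  have hFz : ∀ x, deriv F x = 0 := by
    intro x
    have h1 : deriv F =ᶠ[𝓝[≠] x] fun _ => 0 := (hFe x).nhdsNE_deriv.trans (hd x)
    have h2 : Tendsto (deriv F) (𝓝[≠] x) (𝓝 (deriv F x)) :=
      ((hFa x).deriv.continuousAt.tendsto).mono_left nhdsWithin_le_nhds
    have h3 : Tendsto (deriv F) (𝓝[≠] x) (𝓝 0) := tendsto_const_nhds.congr' h1.symm
    exact tendsto_nhds_unique h2 h3
  refine ⟨F 0, ?_⟩
  apply codisc_of_nhdsNE
  intro x
  refine (hFe x).symm.trans (Eventually.of_forall fun z => ?_)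
  exact is_const_of_deriv_eq_zero hFd hFz z 0

lemma deriv_logDeriv_sigma {z : ℂ} (hz : z ∉ L.lattice) :
    HasDerivAt (logDeriv (sigma L)) (- ℘[L] z) z := by
  have h1 : logDeriv (sigma L) =ᶠ[𝓝 z] zeta L := by
    filter_upwards [(isOpen_compl L).mem_nhds hz] with y hy
    exact logDeriv_sigma L hy
  exact (hasDerivAt_zeta L hz).congr_of_eventuallyEq h1

lemma differentiable_sigma' : Differentiable ℂ (sigma L) := by
  have : sigma L = fun z => z * ∏' l : L.lattice, E2 (z / l) := by
    funext z; exact sigma_eq L z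
  rw [this]
  exact differentiable_id.mul (differentiable_prodE2 L)

lemma mero_logDeriv_sigma : Meromorphic (logDeriv (sigma L)) := by
  intro x
  have h : AnalyticAt ℂ (sigma L) x := differentiable_sigma'.analyticAt x
  exact h.meromorphicAt.deriv.div h.meromorphicAt

/-- rational relations among the residues -/
lemma relations {n : ℕ} (β : Fin n → ℂ) :
    ∃ (k : ℕ) (θ : Fin k → ℂ) (m : Fin n → Fin k → ℤ) (D : ℕ), D ≠ 0 ∧
      (∀ l, (D : ℂ) * β l = ∑ s, (m l s : ℂ) * θ s) ∧
      ∀ r : Fin n → ℤ, ∑ l, β l * (r l : ℂ) = 0 → ∀ s, ∑ l, m l s * r l = 0 := by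
  classical
  set V := Submodule.span ℚ (Set.range β) with hV
  have : FiniteDimensional ℚ V := FiniteDimensional.span_of_finite ℚ (Set.finite_range β)
  let B := Module.finBasis ℚ V
  set k := Module.finrank ℚ V with hk
  have hβ : ∀ l, β l ∈ V := fun l => Submodule.subset_span ⟨l, rfl⟩
  let c : Fin n → Fin k → ℚ := fun l s => B.repr ⟨β l, hβ l⟩ s
  let D : ℕ := ∏ l, ∏ s, (c l s).den
  have hD : D ≠ 0 := Finset.prod_ne_zero_iff.2 fun l _ =>
    Finset.prod_ne_zero_iff.2 fun s _ => (c l s).den_nz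
  have hm : ∀ l s, ∃ m : ℤ, (m : ℚ) = D * c l s := by
    intro l s
    have h1 : (c l s).den ∣ D :=
      (Finset.dvd_prod_of_mem (fun s => (c l s).den) (Finset.mem_univ s)).trans
        (Finset.dvd_prod_of_mem (fun l => ∏ s, (c l s).den) (Finset.mem_univ l))
    obtain ⟨e, he⟩ := h1
    refine ⟨(c l s).num * e, ?_⟩
    have h3 : (c l s) * (c l s).den = (c l s).num := Rat.mul_den_eq_num _
    rw [he]
    push_cast
    linear_combination -(e : ℚ) * h3
  choose m hm using hm
  refine ⟨k, fun s => (B s : ℂ), m, D, hD, ?_, ?_⟩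
  · intro l
    have h1 := B.sum_repr ⟨β l, hβ l⟩
    have h2 : β l = ∑ s, ((c l s : ℚ) : ℂ) * (B s : ℂ) := by
      have := congrArg (Subtype.val) h1
      simp only [Submodule.coe_sum, Submodule.coe_smul] at this
      rw [← this]
      exact Finset.sum_congr rfl fun s _ => by rw [Rat.smul_def]
    rw [h2, Finset.mul_sum]
    refine Finset.sum_congr rfl fun s _ => ?_
    have h3 : ((m l s : ℤ) : ℂ) = (D : ℂ) * ((c l s : ℚ) : ℂ) := by
      have := hm l s
      exact_mod_cast congrArg (fun q : ℚ => (q : ℂ)) this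
    rw [h3]; ring
  · intro r hr s
    have h1 : ∑ l, (r l : ℚ) • (⟨β l, hβ l⟩ : V) = 0 := by
      apply Subtype.ext
      simp only [Submodule.coe_sum, Submodule.coe_smul, Submodule.coe_zero]
      rw [← hr]
      refine Finset.sum_congr rfl fun l _ => ?_
      rw [Rat.smul_def]
      push_cast
      ring
    have h2 : ∑ l, (r l : ℚ) * c l s = 0 := by
      calc ∑ l, (r l : ℚ) * c l s = ∑ l, B.coord s ((r l : ℚ) • (⟨β l, hβ l⟩ : V)) := by
            refine Finset.sum_congr rfl fun l _ => ?_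
            rw [map_smul]
            rfl
        _ = B.coord s (∑ l, (r l : ℚ) • (⟨β l, hβ l⟩ : V)) := (map_sum _ _ _).symm
        _ = 0 := by rw [h1, map_zero]
    have h3 : ((∑ l, m l s * r l : ℤ) : ℚ) = 0 := by
      push_cast
      have h4 : ∀ l, ((m l s : ℤ) : ℚ) * (r l : ℚ) = D * ((r l : ℚ) * c l s) := by
        intro l; rw [hm l s]; ring
      rw [Finset.sum_congr rfl fun l _ => h4 l, ← Finset.mul_sum, h2, mul_zero]
    exact_mod_cast h3

/-- **A sum of logarithmic derivatives, a constant and a multiple of `℘` is the derivative of an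
elliptic function only if the constant and the multiple are zero.** -/
theorem noexact
    (liouville : ∀ {f : ℂ → ℂ}, Ellip L f → (∀ z, 0 ≤ meromorphicOrderAt f z) →
      ∃ c : ℂ, f =ᶠ[codiscrete ℂ] fun _ => c)
    {n : ℕ} {g : ℂ → ℂ} {N : Fin n → ℂ → ℂ} (β : Fin n → ℂ) (a b : ℂ)
    (hg : Ellip L g) (hN : ∀ l, Ellip L (N l))
    (hN0 : ∀ l, ¬ N l =ᶠ[codiscrete ℂ] fun _ => 0)
    (h : deriv g =ᶠ[codiscrete ℂ] fun z => ∑ l, β l * (deriv (N l) z / N l z) + a + b * ℘[L] z) :
    a = 0 ∧ b = 0 := by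
  have hord : ∀ l x, meromorphicOrderAt (N l) x ≠ ⊤ := fun l x => order_ne_top (hN l).1 (hN0 l) x
  set r : ℂ → Fin n → ℤ := fun x l => (meromorphicOrderAt (N l) x).untop₀ with hr
  have hr' : ∀ x l, meromorphicOrderAt (N l) x = (r x l : ℤ) := fun x l =>
    (WithTop.coe_untop₀_of_ne_top (hord l x)).symm
  set S : ℂ → ℂ := fun z => ∑ l, β l * logDeriv (N l) z with hS
  set G : ℂ → ℂ := fun z => g z + b * logDeriv (sigma L) z with hG
  have hGm : Meromorphic G := fun x =>
    (hg.1 x).add ((MeromorphicAt.const b x).mul (mero_logDeriv_sigma x))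
  have hGd : ∀ x, deriv G =ᶠ[𝓝[≠] x] fun z => S z + a := by
    intro x
    filter_upwards [nhdsNE_of_codisc h x, (hg.1 x).eventually_analyticAt, lat_nhdsNE (L := L) x]
      with z h1 h2 h3
    have h4 : HasDerivAt G (deriv g z + b * (- ℘[L] z)) z :=
      h2.differentiableAt.hasDerivAt.add ((deriv_logDeriv_sigma h3).const_mul b)
    rw [h4.deriv, h1]
    simp only [hS, logDeriv_apply]
    ring
  -- limit of (z - x) * (S z + a)
  have hlim : ∀ x, Tendsto (fun z => (z - x) * (S z + a)) (𝓝[≠] x) (𝓝 (∑ l, β l * (r x l : ℂ))) := by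
    intro x
    have h1 : Tendsto (fun z => ∑ l, β l * ((z - x) * logDeriv (N l) z)) (𝓝[≠] x)
        (𝓝 (∑ l, β l * (r x l : ℂ))) :=
      tendsto_finsetSum _ fun l _ =>
        (tendsto_mul_logDeriv ((hN l).1 x) (hr' x l)).const_mul (β l)
    have h2 : Tendsto (fun z : ℂ => (z - x) * a) (𝓝[≠] x) (𝓝 0) := by
      have : ContinuousAt (fun z : ℂ => (z - x) * a) x := by fun_prop
      have h3 := this.tendsto
      simp only [sub_self, zero_mul] at h3
      exact h3.mono_left nhdsWithin_le_nhds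
    have h4 := h1.add h2
    rw [add_zero] at h4
    refine h4.congr fun z => ?_
    simp only [hS]
    rw [mul_add, Finset.mul_sum]
    congr 1
    exact Finset.sum_congr rfl fun l _ => by ring
  have hlim' : ∀ x, Tendsto (fun z => (z - x) * deriv G z) (𝓝[≠] x) (𝓝 (∑ l, β l * (r x l : ℂ))) := by
    intro x
    refine (hlim x).congr' ?_
    filter_upwards [hGd x] with z hz
    rw [hz]
  -- order of G
  have hG0 : ∀ x, 0 ≤ meromorphicOrderAt G x := by
    intro x
    by_contra hneg
    push Not at hneg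
    obtain ⟨q, hq⟩ : ∃ q : ℤ, meromorphicOrderAt G x = q :=
      ⟨_, (WithTop.coe_untop₀_of_ne_top hneg.ne_top).symm⟩
    have hq0 : q < 0 := by
      rw [hq] at hneg
      exact_mod_cast hneg
    have h1 : meromorphicOrderAt (deriv G) x = ((q - 1 : ℤ) : WithTop ℤ) :=
      meromorphicOrderAt_deriv_eq_sub_one (Int.cast_ne_zero.2 hq0.ne) hq
    have h2 : MeromorphicAt (fun z : ℂ => z - x) x := by fun_prop
    have h3 : MeromorphicAt (deriv G) x := (hGm x).deriv
    have h4 := (tendsto_nhds_iff_meromorphicOrderAt_nonneg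
      (f := (fun z : ℂ => z - x) * deriv G) (h2.mul h3)).1 ⟨_, hlim' x⟩
    rw [meromorphicOrderAt_mul h2 h3, h1] at h4
    have h5 : meromorphicOrderAt (fun z : ℂ => z - x) x = 1 :=
      meromorphicOrderAt_id_sub_const
    rw [h5] at h4
    have h6 : (0 : WithTop ℤ) ≤ ((1 + (q - 1) : ℤ) : WithTop ℤ) := by
      push_cast
      exact h4
    have h7 : (0 : ℤ) ≤ 1 + (q - 1) := by exact_mod_cast h6
    omega
  -- residues vanish
  have hres : ∀ x, ∑ l, β l * (r x l : ℂ) = 0 := by
    intro x
    have hFe : G =ᶠ[𝓝[≠] x] toMeromorphicNFAt G x := (hGm x).eq_nhdsNE_toMeromorphicNFAt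
    have hFa : AnalyticAt ℂ (toMeromorphicNFAt G x) x :=
      (hGm x).meromorphicOrderAt_nonneg_iff_analyticAt_toMeromorphicNFAt.1 (hG0 x)
    have h1 : deriv (toMeromorphicNFAt G x) =ᶠ[𝓝[≠] x] deriv G := hFe.symm.nhdsNE_deriv
    have h2 : Tendsto (deriv (toMeromorphicNFAt G x)) (𝓝[≠] x)
        (𝓝 (deriv (toMeromorphicNFAt G x) x)) :=
      (hFa.deriv.continuousAt.tendsto).mono_left nhdsWithin_le_nhds
    have h3 : Tendsto (deriv G) (𝓝[≠] x) (𝓝 (deriv (toMeromorphicNFAt G x) x)) := h2.congr' h1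
    have h4 : Tendsto (fun z : ℂ => z - x) (𝓝[≠] x) (𝓝 0) := by
      have : ContinuousAt (fun z : ℂ => z - x) x := by fun_prop
      have h5 := this.tendsto
      simp only [sub_self] at h5
      exact h5.mono_left nhdsWithin_le_nhds
    have h6 := h4.mul h3
    rw [zero_mul] at h6
    exact tendsto_nhds_unique (hlim' x) h6
  -- the sum of logarithmic derivatives vanishes
  obtain ⟨k, θ, m, D, hD, hβ, hrel⟩ := relations β
  have hSz : ∀ x, S =ᶠ[𝓝[≠] x] fun _ => 0 := by
    have hM : ∀ s, ∃ c : ℂ, (fun z => ∏ l, N l z ^ m l s) =ᶠ[codiscrete ℂ] fun _ => c := by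
      intro s
      apply liouville (ellip_prod_zpow hN fun l => m l s)
      intro x
      have h1 : meromorphicOrderAt (fun z => ∏ l, N l z ^ m l s) x
          = ∑ l, meromorphicOrderAt (fun z => N l z ^ m l s) x :=
        meromorphicOrderAt_fun_prod (f := fun l z => N l z ^ m l s)
          (fun l _ => ((hN l).1 x).zpow (m l s))
      rw [h1]
      have h2 : ∀ l, meromorphicOrderAt (fun z => N l z ^ m l s) x = ((m l s * r x l : ℤ) : WithTop ℤ) := by
        intro l
        have h3 : meromorphicOrderAt (N l ^ m l s) x = _ := meromorphicOrderAt_zpow ((hN l).1 x)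
        change meromorphicOrderAt (N l ^ m l s) x = _
        rw [h3, hr' x l]
        push_cast
        rfl
      rw [Finset.sum_congr rfl fun l _ => h2 l]
      have h3 := hrel (r x) (hres x) s
      have h4 : ∑ l, ((m l s * r x l : ℤ) : WithTop ℤ) = ((∑ l, m l s * r x l : ℤ) : WithTop ℤ) := by
        norm_cast
      rw [h4, h3]
      simp
    intro x
    have hL : ∀ᶠ z in 𝓝[≠] x, ∀ s, ∑ l, (m l s : ℂ) * logDeriv (N l) z = 0 := by
      refine eventually_all.2 fun s => ?_
      obtain ⟨c, hc⟩ := hM s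
      have h1 : ∀ᶠ z in 𝓝[≠] x, logDeriv (fun z => ∏ l, N l z ^ m l s) z = logDeriv (fun _ => c) z :=
        logDeriv_congr_nhdsNE (nhdsNE_of_codisc hc x)
      have h2 : ∀ᶠ z in 𝓝[≠] x, ∀ l, AnalyticAt ℂ (N l) z :=
        eventually_all.2 fun l => ((hN l).1 x).eventually_analyticAt
      have h3 : ∀ᶠ z in 𝓝[≠] x, ∀ l, N l z ≠ 0 :=
        eventually_all.2 fun l =>
          (meromorphicOrderAt_ne_top_iff_eventually_ne_zero ((hN l).1 x)).1 (hord l x)
      filter_upwards [h1, h2, h3] with z h4 h5 h6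
      have h7 : logDeriv (fun z => ∏ l, N l z ^ m l s) z
          = ∑ l, logDeriv (fun z => N l z ^ m l s) z :=
        logDeriv_prod (fun l _ => zpow_ne_zero _ (h6 l))
          (fun l _ => ((h5 l).zpow (h6 l)).differentiableAt)
      rw [h7] at h4
      have h8 : ∀ l, logDeriv (fun z => N l z ^ m l s) z = (m l s : ℂ) * logDeriv (N l) z := by
        intro l
        exact logDeriv_fun_zpow (h5 l).differentiableAt (m l s)
      rw [Finset.sum_congr rfl fun l _ => h8 l] at h4
      rw [h4]
      simp [logDeriv_apply]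
    filter_upwards [hL] with z hz
    have hDc : (D : ℂ) ≠ 0 := by exact_mod_cast hD
    have h1 : (D : ℂ) * S z = 0 := by
      simp only [hS]
      rw [Finset.mul_sum]
      calc ∑ l, (D : ℂ) * (β l * logDeriv (N l) z)
          = ∑ l, ∑ s, θ s * ((m l s : ℂ) * logDeriv (N l) z) := by
            refine Finset.sum_congr rfl fun l _ => ?_
            rw [← mul_assoc, hβ l, Finset.sum_mul]
            exact Finset.sum_congr rfl fun s _ => by ring
        _ = ∑ s, θ s * ∑ l, (m l s : ℂ) * logDeriv (N l) z := by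
            rw [Finset.sum_comm]
            exact Finset.sum_congr rfl fun s _ => by rw [Finset.mul_sum]
        _ = 0 := by simp [hz]
    exact (mul_eq_zero.1 h1).resolve_left hDc
  -- G = a z + c
  obtain ⟨c, hc⟩ : ∃ c : ℂ, (fun z => G z - a * z) =ᶠ[codiscrete ℂ] fun _ => c := by
    apply const_of_deriv
    · exact fun x => (hGm x).sub ((MeromorphicAt.const a x).mul (MeromorphicAt.id x))
    · intro x
      have h1 : MeromorphicAt (fun z : ℂ => - (a * z)) x := by fun_prop
      have h2 : 0 ≤ meromorphicOrderAt (fun z : ℂ => - (a * z)) x := by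
        have : AnalyticAt ℂ (fun z : ℂ => - (a * z)) x := by fun_prop
        exact this.meromorphicOrderAt_nonneg
      have h3 := meromorphicOrderAt_add (hGm x) h1
      have h4 : (G + fun z : ℂ => - (a * z)) = fun z => G z - a * z := by
        funext z; simp [sub_eq_add_neg]
      rw [h4] at h3
      exact (le_min (hG0 x) h2).trans h3
    · intro x
      filter_upwards [hGd x, hSz x, (hGm x).eventually_analyticAt] with z h1 h2 h3
      have h4 : HasDerivAt (fun z => G z - a * z) (deriv G z - a * 1) z :=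
        h3.differentiableAt.hasDerivAt.sub ((hasDerivAt_id z).const_mul a)
      rw [h4.deriv, h1, h2]
      ring
  have hper : ∀ w ∈ L.lattice, -b * eta L w + a * w = 0 := by
    intro w hw
    have h1 := nhdsNE_of_codisc hc 0
    have h2 := nhdsNE_of_codisc hc w
    have h3 : Tendsto (fun z : ℂ => z + w) (𝓝[≠] 0) (𝓝[≠] w) := by
      refine tendsto_nhdsWithin_iff.2 ⟨?_, ?_⟩
      · have : ContinuousAt (fun z : ℂ => z + w) 0 := by fun_prop
        have h4 := this.tendsto
        simp only [zero_add] at h4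
        exact h4.mono_left nhdsWithin_le_nhds
      · filter_upwards [self_mem_nhdsWithin] with z hz
        intro h5
        apply hz
        have : z + w = w := h5
        simpa using this
    have h4 := h3.eventually h2
    have h5 := nhdsNE_of_codisc (hg.2 w hw) 0
    obtain ⟨z, h6, h7, h8, h9⟩ := (h1.and (h4.and (h5.and (lat_nhdsNE (L := L) 0)))).exists
    have h10 : z + w ∉ L.lattice := fun hh => h9 ((add_mem_iff L hw).1 hh)
    have h11 := logDeriv_sigma L h9
    have h12 := logDeriv_sigma L h10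
    have h13 := zeta_add_coe L h9 hw
    simp only [hG] at h6 h7
    rw [h11] at h6
    have h14 : g (z + w) = g z := h8
    rw [h12, h13, h14] at h7
    linear_combination h6 - h7
  by_contra hcon
  have h1 : -b ≠ 0 ∨ a ≠ 0 := by
    by_contra h2
    push Not at h2
    exact hcon ⟨h2.2, neg_eq_zero.1 h2.1⟩
  obtain ⟨w, hw, hne⟩ := exists_quasi_period L h1
  exact hne (hper w hw)

end Pool.Agent.TH312.J1796
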